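import Mathlib
import Pool.Agent.L0h42.EL.L11

/-!
# Almost all integers are, up to a tiny shift, sums of two indices of almost twin primes

The problem asks for `n = k + j` with twin primes `6 k - 1`, `6 k + 1` and `p_j`, `p_j + 2`. Here `6 k - 1` and `p_j` are
primes, and `6 k + 1` and `p_j + 2` have at most `r` prime factors, all of them large, with an absolute constant `r`; and
for all but `o(X)` of the integers `n ≤ X` there is such a sum `k + j` with `n ≤ k + j ≤ n + (log log log n) ^ 19`.

Nothing is known on the distribution of the indices `j` in residue classes, not even modulo `3`: the proof uses only that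
there are at least `x / (log x) ^ 14` indices `j ≤ x` of almost twin primes. The short shift removes the local obstructions.
The lower bound sieve of Brun and Hooley (from the starting files) is applied to `6 k + 1`; its weights are bounded and
linear, so that the primes can be replaced by their sieve model (twisted Bombieri-Vinogradov theorem), and the variance of
the sums over the model, over `n`, is small compared with the square of the mean value.
-/

set_option autoImplicit false

open Finset Filter

namespace Pool.Agent.Results.MP_ea8352_nt.AlmostTwinsAlmostAllWindows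

/-- `q` is prime, and `q + 2` has at most `r` prime factors (counted with multiplicity), each of them, `p` say, with
`p ^ r > q`. -/
def AlmostTwin (r q : ℕ) : Prop :=
  q.Prime ∧ (q + 2).primeFactorsList.length ≤ r ∧ ∀ p : ℕ, p.Prime → p ∣ q + 2 → q < p ^ r

open Classical in
/-- There is an `r` such that for every `ε > 0` and every large `X`, for all but at most `ε X` of the `n ≤ X` there are
positive integers `k`, `j` with `n ≤ k + j ≤ n + (log log log n) ^ 19` such that `6 k - 1` and the `j`-th prime `p_j` are
almost twin primes: they are primes, and `6 k + 1` and `p_j + 2` have at most `r` prime factors, all of them large. -/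
theorem result :
    ∃ r : ℕ, ∀ ε : ℝ, 0 < ε → ∀ᶠ X : ℕ in atTop,
      (((Icc 1 X).filter (fun n : ℕ => ¬ ∃ k j : ℕ, 1 ≤ k ∧ 1 ≤ j ∧ n ≤ k + j ∧
        ((k + j : ℕ) : ℝ) ≤ n + Real.log (Real.log (Real.log n)) ^ 19 ∧
        AlmostTwin r (6 * k - 1) ∧ AlmostTwin r (Nat.nth Nat.Prime (j - 1)))).card : ℝ) ≤ ε * X := by
  obtain ⟨r, hr⟩ := Pool.Agent.L0h42.EL.two_twins
  refine ⟨r, fun ε hε => ?_⟩
  obtain ⟨X1, h1⟩ := hr ε hε
  filter_upwards [eventually_ge_atTop X1] with X hX
  exact h1 X hX

end Pool.Agent.Results.MP_ea8352_nt.AlmostTwinsAlmostAllWindows
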