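import Mathlib
import Pool.Agent.L0h42.EG.F3

/-!
# Sums of two indices of prime clusters in almost all short windows

The problem asks for `n = k + j` with `{6 k - 1, 6 k + 1}` and `{p_j, p_j + 2}` pairs of primes. Here a pair of primes
at distance `2` is replaced on both sides by at least `m` primes in a bounded interval: for every `m` there are `B`
and `C` such that for all but `o(X)` of the `n ≤ X` some integer `n'` with `n ≤ n' ≤ n + (log log log n) ^ B` is
`n' = k + j` with at least `m` primes in `(6 k, 6 k + C]` and at least `m` primes in `[p_j, p_j + C]`.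

No information on the indices `j` is used besides a lower bound `x / (log x) ^ A` for the number of the `j ≤ x` for
which `p_j` starts a cluster: nothing is known on the distribution of these indices in residue classes.
-/

set_option autoImplicit false

open Finset Filter

namespace Pool.Agent.Results.MP_ea8352_nt.ClustersAlmostAllWindows

open Classical in
/-- The primes in `(6 k, 6 k + C]`. -/
noncomputable def primesAbove (C k : ℕ) : Finset ℕ := (Ioc (6 * k) (6 * k + C)).filter Nat.Prime

open Classical in
/-- The primes in `[p_j, p_j + C]`, where `p_j` is the `j`-th prime. -/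
noncomputable def primesFrom (C j : ℕ) : Finset ℕ :=
  (Icc (Nat.nth Nat.Prime (j - 1)) (Nat.nth Nat.Prime (j - 1) + C)).filter Nat.Prime

open Classical in
/-- For every `m` there are `B` and `C` such that for every `ε > 0` and every large `X`, for all but at most `ε X` of the
`n ≤ X` there are positive integers `k`, `j` with `n ≤ k + j ≤ n + (log log log n) ^ B` such that each of the intervals
`(6 k, 6 k + C]` and `[p_j, p_j + C]` contains at least `m` primes. -/
theorem result :
    ∀ m : ℕ, ∃ B C : ℕ, ∀ ε : ℝ, 0 < ε → ∀ᶠ X : ℕ in atTop,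
      (((Icc 1 X).filter (fun n : ℕ => ¬ ∃ k j : ℕ, 1 ≤ k ∧ 1 ≤ j ∧ n ≤ k + j ∧
        ((k + j : ℕ) : ℝ) ≤ n + Real.log (Real.log (Real.log n)) ^ B ∧
        m ≤ (primesAbove C k).card ∧ m ≤ (primesFrom C j).card)).card : ℝ) ≤ ε * X := by
  intro m
  obtain ⟨B, C, hBC⟩ := Pool.Agent.L0h42.EG.two_clusters (m + 1) (by omega)
  refine ⟨B, C, fun ε hε => ?_⟩
  obtain ⟨X1, h1⟩ := hBC ε hε
  filter_upwards [eventually_ge_atTop X1] with X hX
  refine le_trans (Nat.cast_le.2 (card_le_card ?_)) (h1 X hX)
  intro n hn
  rw [mem_filter] at hn ⊢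
  refine ⟨hn.1, fun hcon => hn.2 ?_⟩
  obtain ⟨k, j, hk, hj, h2, h3, h4, h5⟩ := hcon
  refine ⟨k, j, hk, hj, h2, h3, ?_, ?_⟩
  · refine le_trans (le_trans (Nat.le_succ m) h4) (card_le_card ?_)
    intro p hp
    unfold primesAbove
    rw [mem_filter] at hp ⊢
    exact hp
  · refine le_trans (le_trans (Nat.le_succ m) h5) (card_le_card ?_)
    intro p hp
    unfold primesFrom
    rw [mem_filter] at hp ⊢
    exact hp

end Pool.Agent.Results.MP_ea8352_nt.ClustersAlmostAllWindows
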